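import Pool.Agent.W458.MF.NStm

/-!
# Project MF: infinitely many primes split completely
-/

set_option autoImplicit false

namespace Pool.Agent.W976.MF

open Polynomial
open Pool.Agent.W458.MF

/-- Schur: infinitely many primes divide values of a nonconstant polynomial. -/
theorem schur (f : ℤ[X]) (hf : 0 < f.natDegree) (S : Finset ℕ) :
    ∃ l : ℕ, l.Prime ∧ l ∉ S ∧ ∃ a : ℤ, (l : ℤ) ∣ f.eval a := by
  classical
  by_cases hc : f.eval 0 = 0
  · obtain ⟨l, hl1, hl2⟩ := Nat.exists_infinite_primes (S.sup id + 1)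
    refine ⟨l, hl2, ?_, 0, by rw [hc]; exact dvd_zero _⟩
    intro h
    have : l ≤ S.sup id := Finset.le_sup (f := id) h
    omega
  · set c : ℤ := f.eval 0 with hcdef
    set N : ℤ := ∏ p ∈ S.filter Nat.Prime, (p : ℤ) with hN
    have hN0 : N ≠ 0 := by
      rw [hN, Finset.prod_ne_zero_iff]
      intro p hp
      exact_mod_cast (Finset.mem_filter.1 hp).2.ne_zero
    obtain ⟨g, hg⟩ : (X : ℤ[X]) ∣ f - C c := by
      rw [X_dvd_iff, coeff_sub, coeff_C_zero, hcdef, ← coeff_zero_eq_eval_zero, sub_self]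
    have hfeq : f = C c + X * g := by rw [← hg]; ring
    have hne : ∀ v : ℤ, f - C v ≠ 0 := by
      intro v h
      rw [sub_eq_zero] at h
      rw [h, natDegree_C] at hf
      exact lt_irrefl 0 hf
    have hcN : c * N ≠ 0 := mul_ne_zero hc hN0
    set h : ℤ[X] := ((f - C 0) * (f - C c) * (f - C (-c))).comp (C (c * N) * X) with hh
    have hh0 : h ≠ 0 := by
      rw [hh]
      intro h0
      have h1 : ((f - C 0) * (f - C c) * (f - C (-c))) = 0 := by
        rcases comp_eq_zero_iff.1 h0 with h2 | ⟨-, h2⟩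
        · exact h2
        · exfalso
          have h3 := congrArg (fun p => coeff p 1) h2
          simp only [coeff_C_mul, coeff_X_one, mul_one, coeff_C_succ] at h3
          exact hcN h3
      exact mul_ne_zero (mul_ne_zero (hne _) (hne _)) (hne _) h1
    obtain ⟨x, hx⟩ : ∃ x : ℤ, h.eval x ≠ 0 := by
      by_contra hcon
      push Not at hcon
      exact hh0 (Polynomial.funext fun x => by rw [hcon x, eval_zero])
    rw [hh, eval_comp] at hx
    simp only [eval_mul, eval_C, eval_X, eval_sub] at hx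
    set y : ℤ := 1 + N * x * g.eval (c * N * x) with hy
    have hfy : f.eval (c * N * x) = c * y := by
      conv_lhs => rw [hfeq]
      rw [eval_add, eval_C, eval_mul, eval_X, hy]
      ring
    rw [hfy] at hx
    have hy0 : y ≠ 0 := by
      rintro h0
      rw [h0] at hx
      simp at hx
    have hy1 : y ≠ 1 := by
      rintro h0
      rw [h0] at hx
      simp at hx
    have hy2 : y ≠ -1 := by
      rintro h0
      rw [h0] at hx
      simp at hx
    have hyabs : y.natAbs ≠ 1 := by omega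
    obtain ⟨l, hl, hly⟩ := Nat.exists_prime_and_dvd hyabs
    have hly' : (l : ℤ) ∣ y := Int.natCast_dvd.2 hly
    refine ⟨l, hl, ?_, c * N * x, by rw [hfy]; exact Dvd.dvd.mul_left hly' _⟩
    intro hS
    have h1 : (l : ℤ) ∣ N := by
      rw [hN]
      exact Finset.dvd_prod_of_mem (fun p : ℕ => (p : ℤ)) (Finset.mem_filter.2 ⟨hS, hl⟩)
    have h2 : (l : ℤ) ∣ 1 := by
      have h3 : (1 : ℤ) = y - N * (x * g.eval (c * N * x)) := by rw [hy]; ring
      rw [h3]
      exact dvd_sub hly' (Dvd.dvd.mul_right h1 _)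
    have h3 : l ∣ 1 := by exact_mod_cast h2
    exact hl.one_lt.ne' (Nat.dvd_one.1 h3)

/-- clearing denominators -/
theorem clear_den (P : ℚ[X]) : ∃ (D : ℕ) (p : ℤ[X]), D ≠ 0 ∧
    p.map (Int.castRingHom ℚ) = C (D : ℚ) * P := by
  obtain ⟨b, hbm, hb⟩ := IsLocalization.integerNormalization_spec (nonZeroDivisors ℤ) P
  have hb0 : (b : ℤ) ≠ 0 := nonZeroDivisors.ne_zero hbm
  refine ⟨(b : ℤ).natAbs, C ((b : ℤ).sign) *
    IsLocalization.integerNormalization (nonZeroDivisors ℤ) P, Int.natAbs_ne_zero.2 hb0, ?_⟩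
  have h1 : (IsLocalization.integerNormalization (nonZeroDivisors ℤ) P).map (Int.castRingHom ℚ)
      = C ((b : ℤ) : ℚ) * P := by
    have h2 : (algebraMap ℤ ℚ) = Int.castRingHom ℚ := rfl
    rw [← h2, hb]
    ext n
    rw [coeff_C_mul, coeff_smul]
    simp [Algebra.smul_def]
  rw [Polynomial.map_mul, h1, map_C, ← mul_assoc, ← C_mul]
  congr 2
  simp only [eq_intCast]
  rw [← Int.cast_mul, Int.sign_mul_self_eq_natAbs]
  simp

/-- an integral generator -/
theorem exists_gen (L : Type) [Field L] [NumberField L] : ∃ θ : L, IsIntegral ℤ θ ∧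
    ∀ x : L, ∃ (D : ℕ) (p : ℤ[X]), D ≠ 0 ∧ (D : L) * x = aeval θ p := by
  obtain ⟨α, hα⟩ := Field.exists_primitive_element ℚ L
  have halg : IsAlgebraic ℚ α := Algebra.IsAlgebraic.isAlgebraic α
  have halgZ : IsAlgebraic ℤ α := (IsFractionRing.isAlgebraic_iff ℤ ℚ L).2 halg
  obtain ⟨y, hy0, hy⟩ := halgZ.exists_integral_multiple
  refine ⟨y • α, hy, fun x => ?_⟩
  have hx : x ∈ Algebra.adjoin ℚ {α} := by
    have h1 : x ∈ (IntermediateField.adjoin ℚ {α}) := by
      rw [hα]
      trivial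
    rwa [← IntermediateField.mem_toSubalgebra,
      IntermediateField.adjoin_simple_toSubalgebra_of_isAlgebraic halg] at h1
  rw [Algebra.adjoin_singleton_eq_range_aeval] at hx
  obtain ⟨P, hP⟩ := hx
  obtain ⟨D, p, hD, hp⟩ := clear_den (P.comp (C (1 / (y : ℚ)) * X))
  refine ⟨D, p, hD, ?_⟩
  have hyL : (y : L) ≠ 0 := by exact_mod_cast hy0
  have h2 : aeval (y • α) (p.map (Int.castRingHom ℚ)) = aeval (y • α) p := by
    rw [aeval_def, eval₂_map, aeval_def]
    congr 1
    exact RingHom.ext_int _ _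
  rw [← h2, hp, map_mul, aeval_C, aeval_comp, map_mul, aeval_C, aeval_X]
  have h3 : (algebraMap ℚ L) (1 / (y : ℚ)) * y • α = α := by
    rw [map_div₀, map_one, map_intCast, zsmul_eq_mul]
    field_simp
  rw [h3, map_natCast]
  change (D : L) * x = D * (aeval α).toRingHom P
  rw [hP]

theorem SPL : St_SPL := by
  intro R hR hsep
  classical
  refine Set.infinite_of_forall_exists_gt fun M => ?_
  -- the splitting field
  let K := (R.map (Int.castRingHom ℚ)).SplittingField
  have hNF : NumberField K := { }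
  obtain ⟨θ, hθ, hgen⟩ := exists_gen K
  choose D p hD hp using hgen
  set m : ℤ[X] := minpoly ℤ θ with hm
  have hmdeg : 0 < m.natDegree := minpoly.natDegree_pos hθ
  -- the roots
  set S : Finset K := (R.map (Int.castRingHom K)).roots.toFinset with hS
  have hmapK : R.map (Int.castRingHom K) = (R.map (Int.castRingHom ℚ)).map (algebraMap ℚ K) := by
    rw [Polynomial.map_map]
    congr 1
  have hsepK : (R.map (Int.castRingHom K)).Separable := by
    rw [hmapK]
    exact hsep.map
  have hRS : R.map (Int.castRingHom K) = ∏ r ∈ S, (X - C r) := by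
    have hspl : (R.map (Int.castRingHom K)).Splits := by
      rw [hmapK]
      exact SplittingField.splits _
    have h1 := hspl.eq_prod_roots_of_monic (hR.map _)
    conv_lhs => rw [h1]
    rw [hS, Finset.prod_multiset_map_count]
    refine Finset.prod_congr rfl fun r hr => ?_
    have h2 : ((R.map (Int.castRingHom K)).roots).Nodup := nodup_roots hsepK
    rw [Multiset.count_eq_one_of_mem h2 (Multiset.mem_toFinset.1 hr), pow_one]
  -- the constants
  obtain ⟨u, v, N0, hN0, huv⟩ : ∃ (u v : ℤ[X]) (N0 : ℕ), N0 ≠ 0 ∧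
      u * R + v * derivative R = C (N0 : ℤ) := by
    obtain ⟨a, b, hab⟩ := hsep
    obtain ⟨Da, pa, hDa, hpa⟩ := clear_den a
    obtain ⟨Db, pb, hDb, hpb⟩ := clear_den b
    refine ⟨C (Db : ℤ) * pa, C (Da : ℤ) * pb, Da * Db, mul_ne_zero hDa hDb, ?_⟩
    apply Polynomial.map_injective (Int.castRingHom ℚ) Int.cast_injective
    have e : ∀ n : ℕ, (Int.castRingHom ℚ) (n : ℤ) = (n : ℚ) := fun n => by simp
    have h3 : (C ((Da : ℚ) * Db) : ℚ[X]) = C ((Da : ℚ) * Db) * 1 := by rw [mul_one]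
    rw [Polynomial.map_add, Polynomial.map_mul, Polynomial.map_mul, Polynomial.map_mul,
      Polynomial.map_mul, map_C, map_C, map_C, ← derivative_map, hpa, hpb, e, e, e, Nat.cast_mul,
      h3, ← hab, C_mul]
    ring
  obtain ⟨l, hl, hlS, a, hla⟩ := schur m hmdeg
    (Finset.range (M + 1) ∪ N0.primeFactors ∪ (∏ r ∈ S, D r).primeFactors)
  simp only [Finset.mem_union, Finset.mem_range, not_or, not_lt] at hlS
  obtain ⟨⟨hlM, hlN⟩, hlD⟩ := hlS
  refine ⟨l, ⟨hl, ?_⟩, by omega⟩
  have : Fact l.Prime := ⟨hl⟩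
  have hlN' : ¬ l ∣ N0 := fun h => hlN (Nat.mem_primeFactors.2 ⟨hl, h, hN0⟩)
  have hPD : (∏ r ∈ S, D r) ≠ 0 := Finset.prod_ne_zero_iff.2 fun r _ => hD r
  have hlD' : ∀ r ∈ S, (D r : ZMod l) ≠ 0 := by
    intro r hr h0
    rw [ZMod.natCast_eq_zero_iff] at h0
    exact hlD (Nat.mem_primeFactors.2 ⟨hl, h0.trans (Finset.dvd_prod_of_mem D hr), hPD⟩)
  -- the two homomorphisms
  let ψ : AdjoinRoot m →+* ZMod l := AdjoinRoot.lift (Int.castRingHom (ZMod l)) (a : ZMod l) (by
    have h1 : m.eval₂ (Int.castRingHom (ZMod l)) ((Int.castRingHom (ZMod l)) a) =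
      (Int.castRingHom (ZMod l)) (m.eval a) := Polynomial.eval₂_at_apply _ _
    have h2 : (Int.castRingHom (ZMod l)) (m.eval a) = 0 := by
      rw [eq_intCast, ZMod.intCast_zmod_eq_zero_iff_dvd]
      exact hla
    rw [h2] at h1
    exact h1)
  let ι : AdjoinRoot m →+* K := AdjoinRoot.lift (Int.castRingHom K) θ (by
    have h1 : aeval θ m = 0 := minpoly.aeval ℤ θ
    exact h1)
  have hι : Function.Injective ι := by
    rw [injective_iff_map_eq_zero]
    intro x hx
    obtain ⟨g, rfl⟩ := AdjoinRoot.mk_surjective x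
    have h1 : aeval θ g = 0 := by
      have h2 : ι (AdjoinRoot.mk m g) = g.eval₂ (Int.castRingHom K) θ := AdjoinRoot.lift_mk _ g
      rw [h2] at hx
      exact hx
    rw [AdjoinRoot.mk_eq_zero]
    exact (minpoly.isIntegrallyClosed_dvd hθ h1)
  have hιz : ∀ x : K, ι (AdjoinRoot.mk m (p x)) = D x * x := by
    intro x
    have h2 : ι (AdjoinRoot.mk m (p x)) = (p x).eval₂ (Int.castRingHom K) θ :=
      AdjoinRoot.lift_mk _ _
    rw [h2, hp x]
    rfl
  have key : ∏ r ∈ S, (C (D r : AdjoinRoot m) * X - C (AdjoinRoot.mk m (p r))) =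
      C ((∏ r ∈ S, D r : ℕ) : AdjoinRoot m) * R.map (Int.castRingHom (AdjoinRoot m)) := by
    apply Polynomial.map_injective ι hι
    rw [Polynomial.map_prod, Polynomial.map_mul, map_C, Polynomial.map_map,
      RingHom.ext_int (ι.comp (Int.castRingHom (AdjoinRoot m))) (Int.castRingHom K), hRS,
      map_natCast, Nat.cast_prod, map_prod, ← Finset.prod_mul_distrib]
    refine Finset.prod_congr rfl fun r _ => ?_
    rw [Polynomial.map_sub, Polynomial.map_mul, map_C, map_C, map_X, hιz, map_natCast, C_mul]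
    ring
  have key2 := congrArg (Polynomial.map ψ) key
  rw [Polynomial.map_prod, Polynomial.map_mul, map_C, Polynomial.map_map,
      RingHom.ext_int (ψ.comp (Int.castRingHom (AdjoinRoot m))) (Int.castRingHom (ZMod l)),
      map_natCast] at key2
  have key3 : R.map (Int.castRingHom (ZMod l)) =
      ∏ r ∈ S, (X - C (ψ (AdjoinRoot.mk m (p r)) / (D r : ZMod l))) := by
    have h1 : ∏ r ∈ S, (C (D r : AdjoinRoot m) * X - C (AdjoinRoot.mk m (p r))).map ψ =
        C ((∏ r ∈ S, D r : ℕ) : ZMod l) *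
          ∏ r ∈ S, (X - C (ψ (AdjoinRoot.mk m (p r)) / (D r : ZMod l))) := by
      rw [Nat.cast_prod, map_prod, ← Finset.prod_mul_distrib]
      refine Finset.prod_congr rfl fun r hr => ?_
      rw [Polynomial.map_sub, Polynomial.map_mul, map_C, map_C, map_X, map_natCast, mul_sub,
        ← C_mul, mul_div_cancel₀ _ (hlD' r hr)]
    rw [h1] at key2
    have h2 : (C ((∏ r ∈ S, D r : ℕ) : ZMod l) : (ZMod l)[X]) ≠ 0 := by
      rw [Ne, C_eq_zero, Nat.cast_prod, Finset.prod_eq_zero_iff]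
      rintro ⟨r, hr, h0⟩
      exact hlD' r hr h0
    exact (mul_left_cancel₀ h2 key2).symm
  have hsepl : (R.map (Int.castRingHom (ZMod l))).Separable := by
    have h1 := congrArg (Polynomial.map (Int.castRingHom (ZMod l))) huv
    rw [Polynomial.map_add, Polynomial.map_mul, Polynomial.map_mul, map_C, ← derivative_map] at h1
    have hN0l : ((N0 : ℤ) : ZMod l) ≠ 0 := by
      rw [Int.cast_natCast, Ne, ZMod.natCast_eq_zero_iff]
      exact hlN'
    refine ⟨C (((N0 : ℤ) : ZMod l)⁻¹) * u.map (Int.castRingHom (ZMod l)),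
      C (((N0 : ℤ) : ZMod l)⁻¹) * v.map (Int.castRingHom (ZMod l)), ?_⟩
    rw [mul_assoc, mul_assoc, ← mul_add, h1, eq_intCast, ← C_mul, inv_mul_cancel₀ hN0l, C_1]
  have hinj := hsepl
  rw [key3, separable_prod_X_sub_C_iff'] at hinj
  refine ⟨S.image (fun r => ψ (AdjoinRoot.mk m (p r)) / (D r : ZMod l)), ?_⟩
  rw [key3, Finset.prod_image]
  intro x hx y hy hxy
  exact hinj x hx y hy hxy

end Pool.Agent.W976.MF
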